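import Pool.Agent.H458.AR.Num

/-!
# Project AR (helper458), part ABD: union over the forms `G` (helper230)
-/

set_option autoImplicit false
set_option linter.all false

open Matrix
open scoped Classical

namespace Pool.Agent.H230.AR458

open Pool.Agent.N922.PQ (IsPr GoodS)
open Pool.Agent.H458.AR

/-- the symmetric matrix with given entries -/
def mk (e : Fin 6 → ℤ) : Matrix (Fin 3) (Fin 3) ℤ :=
  !![e 0, e 1, e 2; e 1, e 3, e 4; e 2, e 4, e 5]

theorem mk_eq {G : Matrix (Fin 3) (Fin 3) ℤ} (hG : G.IsSymm) :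
    mk ![G 0 0, G 0 1, G 0 2, G 1 1, G 1 2, G 2 2] = G := by
  have h10 : G 1 0 = G 0 1 := hG.apply 0 1
  have h20 : G 2 0 = G 0 2 := hG.apply 0 2
  have h21 : G 2 1 = G 1 2 := hG.apply 1 2
  ext i j
  fin_cases i <;> fin_cases j <;> simp [mk, h10, h20, h21]

/-- the box of the entries -/
noncomputable def box (D : ℤ) : Finset (Fin 6 → ℤ) :=
  Fintype.piFinset fun _ => Finset.Icc (-(64 * D ^ 4)) (64 * D ^ 4)

theorem box_card {D : ℤ} (hD : 1 ≤ D) : ((box D).card : ℤ) ≤ (129 * D ^ 4) ^ 6 := by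
  have hD4 : 1 ≤ D ^ 4 := one_le_pow₀ hD
  rw [box, Fintype.card_piFinset]
  simp only [Finset.prod_const, Finset.card_univ, Fintype.card_fin, Int.card_Icc]
  push_cast
  have h1 : ((64 * D ^ 4 + 1 - -(64 * D ^ 4)).toNat : ℤ) = 128 * D ^ 4 + 1 := by
    rw [Int.toNat_of_nonneg (by linarith)]
    ring
  rw [h1]
  exact pow_le_pow_left₀ (by linarith) (by linarith) 6

theorem mem_box {D : ℤ} {G : Matrix (Fin 3) (Fin 3) ℤ} (h : ∀ i j, |G i j| ≤ 64 * D ^ 4) :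
    ![G 0 0, G 0 1, G 0 2, G 1 1, G 1 2, G 2 2] ∈ box D := by
  rw [box, Fintype.mem_piFinset]
  intro i
  rw [Finset.mem_Icc, ← abs_le]
  fin_cases i <;> simp [h]

theorem abd (h : S_BXR) : S_ABD := by
  refine ⟨129 ^ 6 * 243 * 128 ^ 5, ?_⟩
  intro X R s D hR hD hRD hX
  have hD4 : 1 ≤ D ^ 4 := one_le_pow₀ hD
  have hX0 : (0 : ℤ) ≤ X := Int.natCast_nonneg X
  set N : ℤ := 128 * D ^ 4 * X with hN
  have hXN : (X : ℤ) ≤ N := by
    rw [hN]
    nlinarith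
  -- the admissible forms
  set Ok : (Fin 6 → ℤ) → Prop := fun e =>
    ∃ G' : Matrix (Fin 3) (Fin 3) ℤ, mk e * G' = D • (1 : Matrix (Fin 3) (Fin 3) ℤ) with hOk
  set A : (Fin 6 → ℤ) → Set (ℤ × ℤ) := fun e => {p | ∃ B, BOk (mk e) R s N B p} with hA
  have hsymm : ∀ e, (mk e).IsSymm := by
    intro e
    ext i j
    fin_cases i <;> fin_cases j <;> simp [mk]
  have hdet : ∀ e, Ok e → (mk e).det ≠ 0 ∧ ∀ Q ∈ R, ¬ Q ∣ (mk e).det := by
    rintro e ⟨G', hG'⟩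
    have h1 : (mk e).det * G'.det = D ^ 3 := by
      rw [← det_mul, hG', det_smul, det_one, mul_one, Fintype.card_fin]
    have hD3 : D ^ 3 ≠ 0 := pow_ne_zero 3 (by linarith)
    refine ⟨fun h0 => hD3 (by rw [← h1, h0, zero_mul]), fun Q hQ hdvd => ?_⟩
    have h2 : Q ∣ D ^ 3 := h1 ▸ hdvd.mul_right _
    exact hRD Q hQ ((hR Q hQ).1.2.dvd_of_dvd_pow h2)
  have hbx : ∀ e, Ok e → (A e).Finite ∧
      2 ^ R.card * (∏ Q ∈ R, Q) ^ 2 * ((A e).ncard : ℤ) ≤ 243 * N ^ 5 := fun e he =>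
    h (mk e) R s N (hsymm e) (hdet e he).1 hR (hdet e he).2 (hX.trans hXN)
  set F : Finset (Fin 6 → ℤ) := (box D).filter Ok with hF
  have hsub : {p : ℤ × ℤ | ABad X R s D p} ⊆ ⋃ e ∈ F, A e := by
    rintro p ⟨G, G', B, hG, hGG, hGb, hB⟩
    rw [Set.mem_iUnion₂]
    refine ⟨![G 0 0, G 0 1, G 0 2, G 1 1, G 1 2, G 2 2], ?_, B, ?_⟩
    · rw [hF, Finset.mem_filter]
      refine ⟨mem_box hGb, G', ?_⟩
      rw [mk_eq hG]
      exact hGG
    · rw [mk_eq hG]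
      exact hB
  have hfin : (⋃ e ∈ F, A e).Finite :=
    F.finite_toSet.biUnion fun e he => (hbx e (Finset.mem_filter.1 he).2).1
  refine ⟨hfin.subset hsub, ?_⟩
  set W : ℤ := 2 ^ R.card * (∏ Q ∈ R, Q) ^ 2 with hW
  have hW0 : 0 ≤ W := by positivity
  have h1 : {p : ℤ × ℤ | ABad X R s D p}.ncard ≤ ∑ e ∈ F, (A e).ncard := by
    refine (Set.ncard_le_ncard hsub hfin).trans ?_
    exact Finset.set_ncard_biUnion_le F A
  have h2 : ((∑ e ∈ F, (A e).ncard : ℕ) : ℤ) * W ≤ F.card * (243 * N ^ 5) := by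
    push_cast
    rw [Finset.sum_mul, ← nsmul_eq_mul, ← Finset.sum_const]
    apply Finset.sum_le_sum
    intro e he
    have := (hbx e (Finset.mem_filter.1 he).2).2
    rw [mul_comm]
    exact this
  have h3 : (F.card : ℤ) ≤ (129 * D ^ 4) ^ 6 := by
    refine le_trans ?_ (box_card hD)
    exact_mod_cast Finset.card_filter_le _ _
  have hN0 : 0 ≤ 243 * N ^ 5 := by positivity
  calc W * ({p : ℤ × ℤ | ABad X R s D p}.ncard : ℤ)
      ≤ W * ((∑ e ∈ F, (A e).ncard : ℕ) : ℤ) :=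
        mul_le_mul_of_nonneg_left (by exact_mod_cast h1) hW0
    _ = ((∑ e ∈ F, (A e).ncard : ℕ) : ℤ) * W := mul_comm _ _
    _ ≤ F.card * (243 * N ^ 5) := h2
    _ ≤ (129 * D ^ 4) ^ 6 * (243 * N ^ 5) := mul_le_mul_of_nonneg_right h3 hN0
    _ = _ := by
        rw [hN]
        push_cast
        ring

end Pool.Agent.H230.AR458
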