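import Pool.Agent.H458.AR.Fld
import Pool.Graph.R_pool_sql_team_seeded_63374d34.N951.PV.PT2
import Pool.Graph.R_pool_sql_team_seeded_63374d34.N907.PV.NF2

/-!
# Project AR (helper458), part IX2: the local condition at `2` has index two (helper230)
-/

set_option autoImplicit false
set_option linter.all false

open Polynomial IsDedekindDomain NumberField
open scoped Classical

namespace Pool.Agent.H230.AR458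

open Pool.Agent.N922.PQ
open Pool.Agent.N951.PV
open Pool.Agent.H458.AR

/-- the rational numbers with odd denominators -/
def Z2 : Subring ℚ where
  carrier := {q | Odd q.den}
  mul_mem' := by
    intro x y hx hy
    exact Odd.of_dvd_nat (Nat.odd_mul.2 ⟨hx, hy⟩) (Rat.mul_den_dvd x y)
  one_mem' := by
    show Odd (1 : ℚ).den
    simp
  add_mem' := by
    intro x y hx hy
    exact Odd.of_dvd_nat (Nat.odd_mul.2 ⟨hx, hy⟩) (Rat.add_den_dvd x y)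
  zero_mem' := by
    show Odd (0 : ℚ).den
    simp
  neg_mem' := by
    intro x hx
    show Odd (-x).den
    rw [Rat.neg_den]
    exact hx

theorem int_mem (n : ℤ) : (n : ℚ) ∈ Z2 := intCast_mem Z2 n

/-- sufficient condition at `2` -/
theorem loc_of {L : Type} [Field L] [NumberField L] {a b : ℤ} {θ : L} (hc : IsCub a b θ)
    (ha : Odd a) (hab : (4 : ℤ) ∣ a - b) {x c : L} {g₁ g₂ : ℤ} {r s t : ℚ} (hr : Odd r.den)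
    (hs : Odd s.den) (ht : Odd t.den)
    (hx : x = c ^ 2 * aeval θ (pol ℚ g₁ g₂ ((g₁ * (1 + g₂) : ℤ) + 2 * r) s t))
    (h5 : (Even g₁ ∧ Even g₂) ∨ ((4 : ℤ) ∣ 2 * g₁ - (1 - a) ∧ (4 : ℤ) ∣ 2 * g₂ - (3 - a))) :
    Loc2 a b θ x := by
  obtain ⟨k, hk⟩ := hc.exists_poly c
  set P : ℚ[X] := pol ℚ g₁ g₂ ((g₁ * (1 + g₂) : ℤ) + 2 * r) s t with hP
  have e1 : aeval θ (k ^ 2 * P) = x := by
    rw [map_mul, map_pow, hk, hx]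
  have hnd : ∀ q : ℚ, Odd q.den → ‖(q : ℚ_[2])‖ ≤ 1 := by
    intro q hq
    apply Padic.norm_rat_le_one
    intro h
    exact (Nat.not_even_iff_odd.2 hq) (even_iff_two_dvd.2 h)
  have h6 := pt2 a b ha hab g₁ g₂ ((((g₁ * (1 + g₂) : ℤ) : ℚ) + 2 * r : ℚ) : ℚ_[2]) s t (by
    have e : ((((g₁ * (1 + g₂) : ℤ) : ℚ) + 2 * r : ℚ) : ℚ_[2]) - ((g₁ * (1 + g₂) : ℤ) : ℚ_[2]) =
        2 * (r : ℚ_[2]) := by
      push_cast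
      ring
    rw [e, norm_mul]
    have e3 : ‖(2 : ℚ_[2])‖ = 1 / 2 := by
      have := Padic.norm_p (p := 2)
      rw [Nat.cast_ofNat] at this
      rw [this]
      norm_num
    rw [e3]
    have := hnd r hr
    linarith) (hnd s hs) (hnd t ht) h5
  rw [← pol_map, ← hP] at h6
  intro h' hh'
  have h7 : PL ℚ_[2] a b ((k.map (algebraMap ℚ ℚ_[2])) ^ 2 * P.map (algebraMap ℚ ℚ_[2])) :=
    pl_sq _ h6
  rw [← Polynomial.map_pow, ← Polynomial.map_mul] at h7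
  exact pl_congr (cast_congr hc ℚ_[2] (e1.trans hh'.symm)) h7

theorem aeval_pol {L : Type} [Field L] [CharZero L] (θ : L) (g₁ g₂ : ℤ) (r s t : ℚ) :
    aeval θ (pol ℚ g₁ g₂ r s t) = 1 + 2 * ((g₁ : L) * θ + (g₂ : L) * θ ^ 2) +
      4 * ((r : L) + (s : L) * θ + (t : L) * θ ^ 2) := by
  rw [pol]
  simp only [map_add, map_mul, map_pow, map_one, aeval_X, aeval_C, map_ofNat, map_intCast,
    eq_ratCast]

/-- the product of two normal forms -/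
theorem mul_nf {L : Type} [Field L] [NumberField L] {a b : ℤ} {θ : L} (hc : IsCub a b θ)
    (hb : Odd b) (g₁ g₂ g₁' g₂' : ℤ) {r s t r' s' t' : ℚ} (hr : r ∈ Z2)
    (hs : s ∈ Z2) (ht : t ∈ Z2) (hr' : r' ∈ Z2) (hs' : s' ∈ Z2) (ht' : t' ∈ Z2) :
    ∃ R S T : ℚ, R ∈ Z2 ∧ S ∈ Z2 ∧ T ∈ Z2 ∧
      aeval θ (pol ℚ g₁ g₂ ((g₁ * (1 + g₂) : ℤ) + 2 * r) s t) *
        aeval θ (pol ℚ g₁' g₂' ((g₁' * (1 + g₂') : ℤ) + 2 * r') s' t') =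
      aeval θ (pol ℚ (g₁ + g₁') (g₂ + g₂')
        ((((g₁ + g₁') * (1 + (g₂ + g₂')) : ℤ)) + 2 * R) S T) := by
  obtain ⟨l, hl⟩ := hb
  obtain ⟨ρ, hρ⟩ : ∃ ρ : ℚ, ρ = (g₁ * (1 + g₂) : ℤ) + 2 * r := ⟨_, rfl⟩
  obtain ⟨ρ', hρ'⟩ : ∃ ρ' : ℚ, ρ' = (g₁' * (1 + g₂') : ℤ) + 2 * r' := ⟨_, rfl⟩
  have h2 : (2 : ℚ) ∈ Z2 := by exact_mod_cast int_mem 2
  have hρ2 : ρ ∈ Z2 := by
    rw [hρ]
    exact Z2.add_mem (int_mem _) (Z2.mul_mem h2 hr)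
  have hρ2' : ρ' ∈ Z2 := by
    rw [hρ']
    exact Z2.add_mem (int_mem _) (Z2.mul_mem h2 hr')
  have i1 := int_mem g₁
  have i2 := int_mem g₂
  have i1' := int_mem g₁'
  have i2' := int_mem g₂'
  have ia := int_mem a
  have ib := int_mem b
  have il := int_mem (l + 1)
  -- the coordinates of the products
  let M0 : ℚ → ℚ → ℚ → ℚ → ℚ → ℚ → ℚ := fun x0 x1 x2 y0 y1 y2 => x0 * y0 - b * (x1 * y2 + x2 * y1)
  let M1 : ℚ → ℚ → ℚ → ℚ → ℚ → ℚ → ℚ := fun x0 x1 x2 y0 y1 y2 =>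
    x0 * y1 + x1 * y0 - a * (x1 * y2 + x2 * y1) - b * (x2 * y2)
  let M2 : ℚ → ℚ → ℚ → ℚ → ℚ → ℚ → ℚ := fun x0 x1 x2 y0 y1 y2 =>
    x0 * y2 + x1 * y1 + x2 * y0 - a * (x2 * y2)
  have z0 : (0 : ℚ) ∈ Z2 := Z2.zero_mem
  have m0 : ∀ {x0 x1 x2 y0 y1 y2 : ℚ}, x0 ∈ Z2 → x1 ∈ Z2 → x2 ∈ Z2 → y0 ∈ Z2 → y1 ∈ Z2 → y2 ∈ Z2 →
      M0 x0 x1 x2 y0 y1 y2 ∈ Z2 := by
    intro x0 x1 x2 y0 y1 y2 a0 a1 a2 b0 b1 b2
    exact Z2.sub_mem (Z2.mul_mem a0 b0) (Z2.mul_mem ib (Z2.add_mem (Z2.mul_mem a1 b2) (Z2.mul_mem a2 b1)))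
  have m1 : ∀ {x0 x1 x2 y0 y1 y2 : ℚ}, x0 ∈ Z2 → x1 ∈ Z2 → x2 ∈ Z2 → y0 ∈ Z2 → y1 ∈ Z2 → y2 ∈ Z2 →
      M1 x0 x1 x2 y0 y1 y2 ∈ Z2 := by
    intro x0 x1 x2 y0 y1 y2 a0 a1 a2 b0 b1 b2
    exact Z2.sub_mem (Z2.sub_mem (Z2.add_mem (Z2.mul_mem a0 b1) (Z2.mul_mem a1 b0))
      (Z2.mul_mem ia (Z2.add_mem (Z2.mul_mem a1 b2) (Z2.mul_mem a2 b1))))
      (Z2.mul_mem ib (Z2.mul_mem a2 b2))
  have m2 : ∀ {x0 x1 x2 y0 y1 y2 : ℚ}, x0 ∈ Z2 → x1 ∈ Z2 → x2 ∈ Z2 → y0 ∈ Z2 → y1 ∈ Z2 → y2 ∈ Z2 →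
      M2 x0 x1 x2 y0 y1 y2 ∈ Z2 := by
    intro x0 x1 x2 y0 y1 y2 a0 a1 a2 b0 b1 b2
    exact Z2.sub_mem (Z2.add_mem (Z2.add_mem (Z2.mul_mem a0 b2) (Z2.mul_mem a1 b1)) (Z2.mul_mem a2 b0))
      (Z2.mul_mem ia (Z2.mul_mem a2 b2))
  refine ⟨r + r' - (l + 1 : ℤ) * (g₁ * g₂' + g₂ * g₁') + (M0 0 g₁ g₂ ρ' s' t' + M0 0 g₁' g₂' ρ s t) +
      2 * M0 ρ s t ρ' s' t',
    s + s' + M1 0 g₁ g₂ 0 g₁' g₂' + 2 * (M1 0 g₁ g₂ ρ' s' t' + M1 0 g₁' g₂' ρ s t) +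
      2 * (2 * M1 ρ s t ρ' s' t'),
    t + t' + M2 0 g₁ g₂ 0 g₁' g₂' + 2 * (M2 0 g₁ g₂ ρ' s' t' + M2 0 g₁' g₂' ρ s t) +
      2 * (2 * M2 ρ s t ρ' s' t'), ?_, ?_, ?_, ?_⟩
  · exact Z2.add_mem (Z2.add_mem (Z2.sub_mem (Z2.add_mem hr hr') (Z2.mul_mem il
      (Z2.add_mem (Z2.mul_mem i1 i2') (Z2.mul_mem i2 i1'))))
      (Z2.add_mem (m0 z0 i1 i2 hρ2' hs' ht') (m0 z0 i1' i2' hρ2 hs ht)))
      (Z2.mul_mem h2 (m0 hρ2 hs ht hρ2' hs' ht'))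
  · exact Z2.add_mem (Z2.add_mem (Z2.add_mem (Z2.add_mem hs hs') (m1 z0 i1 i2 z0 i1' i2'))
      (Z2.mul_mem h2 (Z2.add_mem (m1 z0 i1 i2 hρ2' hs' ht') (m1 z0 i1' i2' hρ2 hs ht))))
      (Z2.mul_mem h2 (Z2.mul_mem h2 (m1 hρ2 hs ht hρ2' hs' ht')))
  · exact Z2.add_mem (Z2.add_mem (Z2.add_mem (Z2.add_mem ht ht') (m2 z0 i1 i2 z0 i1' i2'))
      (Z2.mul_mem h2 (Z2.add_mem (m2 z0 i1 i2 hρ2' hs' ht') (m2 z0 i1' i2' hρ2 hs ht))))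
      (Z2.mul_mem h2 (Z2.mul_mem h2 (m2 hρ2 hs ht hρ2' hs' ht')))
  · have hrL : (ρ : L) = ((g₁ * (1 + g₂) : ℤ) : L) + 2 * (r : L) := by
      rw [hρ]
      push_cast
      ring
    have hrL' : (ρ' : L) = ((g₁' * (1 + g₂') : ℤ) : L) + 2 * (r' : L) := by
      rw [hρ']
      push_cast
      ring
    have hlL : (b : L) = 2 * (l : L) + 1 := by exact_mod_cast hl
    rw [← hρ, ← hρ', aeval_pol, aeval_pol, aeval_pol]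
    simp only [M0, M1, M2]
    push_cast at hrL hrL' ⊢
    have hroot := hc.root
    linear_combination (((2 * (g₁ : L) + 4 * s) * (2 * (g₂' : L) + 4 * t') +
      (2 * (g₂ : L) + 4 * t) * (2 * (g₁' : L) + 4 * s')) +
      (2 * (g₂ : L) + 4 * t) * (2 * (g₂' : L) + 4 * t') * θ) * hroot + 4 * hrL + 4 * hrL' -
      4 * ((g₁ : L) * g₂' + g₂ * g₁') * hlL

theorem ix2 : S_IX2 := by
  intro L _ _ a b θ hc ha hab α β hα hβ hNα hNβ hlα hlβ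
  have hb : Odd b := by
    obtain ⟨k, hk⟩ := ha
    obtain ⟨l, hl⟩ := hab
    exact ⟨k - 2 * l, by omega⟩
  obtain ⟨c, g₁, g₂, r, s, t, hc0, hr, hs, ht, hα'⟩ :=
    Pool.Agent.N907.PV.t_NF2 L a b θ hc ha hb α hα hNα
  obtain ⟨c', g₁', g₂', r', s', t', hc0', hr', hs', ht', hβ'⟩ :=
    Pool.Agent.N907.PV.t_NF2 L a b θ hc ha hb β hβ hNβ
  have n1 : ¬ ((Even g₁ ∧ Even g₂) ∨
      ((4 : ℤ) ∣ 2 * g₁ - (1 - a) ∧ (4 : ℤ) ∣ 2 * g₂ - (3 - a))) :=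
    fun h => hlα (loc_of hc ha hab hr hs ht hα' h)
  have n2 : ¬ ((Even g₁' ∧ Even g₂') ∨
      ((4 : ℤ) ∣ 2 * g₁' - (1 - a) ∧ (4 : ℤ) ∣ 2 * g₂' - (3 - a))) :=
    fun h => hlβ (loc_of hc ha hab hr' hs' ht' hβ' h)
  obtain ⟨R, S, T, hR, hS, hT, hm⟩ := mul_nf hc hb g₁ g₂ g₁' g₂' hr hs ht hr' hs' ht'
  refine loc_of hc ha hab (c := c * c') (g₁ := g₁ + g₁') (g₂ := g₂ + g₂') hR hS hT ?_ ?_
  · rw [hα', hβ', ← hm]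
    ring
  · obtain ⟨k, hk⟩ := ha
    simp only [Int.even_iff] at n1 n2 ⊢
    omega

end Pool.Agent.H230.AR458
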